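import Pool.Agent.Helper45.LGB.St2

/-! # Project LGB, module GRV: the associated graded space of a group of exponent p -/

set_option autoImplicit false

namespace Pool.Agent.Helper1.LGB

open Pool.Agent.Helper45.LGB Pool.Agent.Helper83.RB

open scoped commutatorElement

/-- the terms of the lower central series -/
private abbrev Gam (G : Type) [Group G] (k : ℕ) : Subgroup G :=
  (⊤ : Subgroup G).lowerCentralSeries k

/-- the next term inside a term -/
private abbrev NN (G : Type) [Group G] (k : ℕ) : Subgroup (Gam G k) :=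
  (Gam G (k + 1)).subgroupOf (Gam G k)

/-- the quotients -/
private def QQ (G : Type) [Group G] (k : ℕ) : Type := (Gam G k) ⧸ (NN G k)

private noncomputable instance (G : Type) [Group G] (k : ℕ) : Group (QQ G k) :=
  inferInstanceAs (Group ((Gam G k) ⧸ (NN G k)))

/-- the class -/
private def cl (G : Type) [Group G] (k : ℕ) : Gam G k →* QQ G k := QuotientGroup.mk' (NN G k)

private theorem cl_surj (G : Type) [Group G] (k : ℕ) (x : QQ G k) : ∃ a, cl G k a = x :=
  QuotientGroup.mk'_surjective (NN G k) x

private theorem cl_eq_one {G : Type} [Group G] {k : ℕ} (a : Gam G k) :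
    cl G k a = 1 ↔ (a : G) ∈ Gam G (k + 1) := by
  have : cl G k a = 1 ↔ a ∈ NN G k := QuotientGroup.eq_one_iff a
  rw [this, Subgroup.mem_subgroupOf]

private theorem cl_eq {G : Type} [Group G] {k : ℕ} (a b : Gam G k)
    (h : (a : G) * (b : G)⁻¹ ∈ Gam G (k + 1)) : cl G k a = cl G k b := by
  have h1 : cl G k (a * b⁻¹) = 1 := (cl_eq_one _).2 (by simpa using h)
  rw [map_mul, map_inv] at h1
  exact mul_inv_eq_one.1 h1

private noncomputable instance (G : Type) [Group G] (k : ℕ) : CommGroup (QQ G k) :=
  { (inferInstance : Group (QQ G k)) with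
    mul_comm := by
      intro x y
      obtain ⟨a, rfl⟩ := cl_surj G k x
      obtain ⟨b, rfl⟩ := cl_surj G k y
      rw [← map_mul, ← map_mul]
      refine cl_eq _ _ ?_
      have h1 : (a : G) * b * ((b : G) * a)⁻¹ = ⁅(a : G), (b : G)⁆ := by
        rw [commutatorElement_def]
        group
      rw [Subgroup.coe_mul, Subgroup.coe_mul, h1]
      exact Subgroup.commutator_mem_commutator a.2 (Subgroup.mem_top _) }

/-- the induced maps -/
private noncomputable def br (hBIL : StBIL) {G : Type} [Group G] (k w : ℕ) (g : G)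
    (hg : g ∈ Gam G w) : Gam G k →* QQ G (k + w + 1) where
  toFun a := cl G (k + w + 1) ⟨⁅(a : G), g⁆, (hBIL G).1 k w a a.2 g hg⟩
  map_one' := by
    refine (cl_eq_one _).2 ?_
    show ⁅((1 : Gam G k) : G), g⁆ ∈ Gam G (k + w + 1 + 1)
    rw [Subgroup.coe_one, commutatorElement_one_left]
    exact one_mem _
  map_mul' a b := by
    rw [← map_mul]
    refine cl_eq _ _ ?_
    exact (hBIL G).2.2.1 k w a a.2 b b.2 g hg

private theorem br_ker (hBIL : StBIL) {G : Type} [Group G] (k w : ℕ) (g : G)
    (hg : g ∈ Gam G w) (a : Gam G k) (ha : a ∈ NN G k) : br hBIL k w g hg a = 1 := by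
  refine (cl_eq_one _).2 ?_
  have h1 := (hBIL G).1 (k + 1) w a (Subgroup.mem_subgroupOf.1 ha) g hg
  have e : k + 1 + w + 1 = k + w + 1 + 1 := by omega
  rw [e] at h1
  exact h1

/-- the induced maps of the quotients -/
private noncomputable def bq (hBIL : StBIL) {G : Type} [Group G] (k w : ℕ) (g : G)
    (hg : g ∈ Gam G w) : QQ G k →* QQ G (k + w + 1) :=
  QuotientGroup.lift (NN G k) (br hBIL k w g hg) (fun a ha => br_ker hBIL k w g hg a ha)

private theorem bq_cl (hBIL : StBIL) {G : Type} [Group G] (k w : ℕ) (g : G)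
    (hg : g ∈ Gam G w) (a : Gam G k) : bq hBIL k w g hg (cl G k a) = br hBIL k w g hg a :=
  QuotientGroup.lift_mk' _ _ a

/-- the graded space -/
private def VV (G : Type) [Group G] : Type := Π₀ k : ℕ, Additive (QQ G k)

private noncomputable instance (G : Type) [Group G] : AddCommGroup (VV G) :=
  inferInstanceAs (AddCommGroup (Π₀ k : ℕ, Additive (QQ G k)))

/-- the inclusions -/
private noncomputable def sg (G : Type) [Group G] (k : ℕ) : Additive (QQ G k) →+ VV G :=
  DFinsupp.singleAddHom (fun k => Additive (QQ G k)) k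

private theorem sg_eq_zero {G : Type} [Group G] {k : ℕ} (x : Additive (QQ G k)) :
    sg G k x = 0 ↔ x = 0 :=
  DFinsupp.single_eq_zero

/-- the universal property -/
private noncomputable def lf {G : Type} [Group G] {M : Type} [AddCommGroup M]
    (f : ∀ k, Additive (QQ G k) →+ M) : VV G →+ M :=
  DFinsupp.liftAddHom f

private theorem lf_sg {G : Type} [Group G] {M : Type} [AddCommGroup M]
    (f : ∀ k, Additive (QQ G k) →+ M) (k : ℕ) (x : Additive (QQ G k)) :
    lf f (sg G k x) = f k x :=
  DFinsupp.liftAddHom_apply_single _ _ _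

private theorem hom_ext {G : Type} [Group G] {M : Type} [AddCommGroup M]
    (f g : VV G →+ M) (h : ∀ k x, f (sg G k x) = g (sg G k x)) : f = g :=
  DFinsupp.addHom_ext h

open Classical in
/-- the classes as elements of the graded space -/
private noncomputable def ee (G : Type) [Group G] (k : ℕ) (a : G) : VV G :=
  if h : a ∈ Gam G k then sg G k (Additive.ofMul (cl G k ⟨a, h⟩)) else 0

private theorem ee_pos {G : Type} [Group G] {k : ℕ} {a : G} (h : a ∈ Gam G k) :
    ee G k a = sg G k (Additive.ofMul (cl G k ⟨a, h⟩)) := by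
  rw [ee, dif_pos h]

open Classical in
/-- the operators as additive maps -/
private noncomputable def dd (hBIL : StBIL) {G : Type} [Group G] (w : ℕ) (g : G) : VV G →+ VV G :=
  if hg : g ∈ Gam G w then
    lf fun k => (sg G (k + w + 1)).comp (MonoidHom.toAdditive (bq hBIL k w g hg))
  else 0

private theorem dd_single (hBIL : StBIL) {G : Type} [Group G] (w : ℕ) (g : G)
    (hg : g ∈ Gam G w) (k : ℕ) (x : QQ G k) :
    dd hBIL w g (sg G k (Additive.ofMul x)) =
      sg G (k + w + 1) (Additive.ofMul (bq hBIL k w g hg x)) := by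
  rw [dd, dif_pos hg]
  exact lf_sg _ _ _

private theorem p_smul {p : ℕ} {G : Type} [Group G] (hp : ∀ g : G, g ^ p = 1) (v : VV G) :
    p • v = 0 := by
  have h1 : (nsmulAddMonoidHom p : VV G →+ VV G) = 0 := by
    refine hom_ext _ _ fun k x => ?_
    obtain ⟨a, ha⟩ := cl_surj G k (Additive.toMul x)
    have h2 : p • x = 0 := by
      apply Additive.toMul.injective
      rw [toMul_nsmul, ← ha, ← map_pow, toMul_zero]
      have : a ^ p = 1 := Subtype.ext (by simpa using hp a)
      rw [this, map_one]
    rw [nsmulAddMonoidHom_apply, ← map_nsmul, h2, map_zero, AddMonoidHom.zero_apply]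
  have h2 := DFunLike.congr_fun h1 v
  simpa using h2

theorem hGRV (hBIL : StBIL) : StGRV := by
  intro p _ G _ hp
  let _ : Module (ZMod p) (VV G) := AddCommGroup.zmodModule (n := p) (p_smul hp)
  refine ⟨VV G, inferInstance, inferInstance, ee G,
    fun w g => AddMonoidHom.toZModLinearMap p (dd hBIL w g), ?_, ?_, ?_, ?_⟩
  · intro k a ha b hb
    rw [ee_pos ha, ee_pos hb, ee_pos (mul_mem ha hb), ← map_add, ← ofMul_mul, ← map_mul]
    rfl
  · intro k a ha
    rw [ee_pos ha, sg_eq_zero, ofMul_eq_zero, cl_eq_one]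
  · intro k w a ha g hg
    show dd hBIL w g (ee G k a) = _
    rw [ee_pos ha, dd_single hBIL w g hg, bq_cl, ee_pos ((hBIL G).1 k w a ha g hg)]
    rfl
  · intro F hF
    have h1 : F.toAddMonoidHom = 0 := by
      refine hom_ext _ _ fun k x => ?_
      obtain ⟨a, ha⟩ := cl_surj G k (Additive.toMul x)
      have h2 := hF k a a.2
      rw [ee_pos a.2] at h2
      have h3 : (⟨(a : G), a.2⟩ : Gam G k) = a := rfl
      rw [h3, ha] at h2
      exact h2
    refine LinearMap.ext fun v => ?_
    exact DFunLike.congr_fun h1 v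

end Pool.Agent.Helper1.LGB
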